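import Mathlib
import Pool.Agent.H15.G.R_seed8.Chud.Defs

set_option autoImplicit false

namespace Pool.Agent.Chud

open MvPolynomial

variable {k : Type*} [Field k]

/-! ### local coefficients -/

/-- indices of the coefficients of degree `< t` of a polynomial in two variables -/
abbrev De (t : ℕ) := Σ i : Fin t, Fin (i.val + 1)

lemma card_De (t : ℕ) : 2 * Fintype.card (De t) = t * (t + 1) := by
  rw [Fintype.card_sigma]
  simp only [Fintype.card_fin]
  rw [Fin.sum_univ_eq_sum_range (fun i => i + 1) t]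
  have h := Finset.sum_range_id_mul_two (t + 1)
  rw [Finset.sum_range_succ', add_zero] at h
  simp only [Nat.add_sub_cancel] at h
  linarith

/-- the exponent `(i,j)` -/
noncomputable def ex (i j : ℕ) : Fin 2 →₀ ℕ := Finsupp.single 0 i + Finsupp.single 1 j

lemma ex_zero (i j : ℕ) : ex i j 0 = i := by simp [ex]
lemma ex_one (i j : ℕ) : ex i j 1 = j := by simp [ex]

lemma ex_eta (d : Fin 2 →₀ ℕ) : d = ex (d 0) (d 1) := by
  ext i
  fin_cases i
  · simp [ex]
  · simp [ex]

lemma degree_ex (i j : ℕ) : (ex i j).degree = i + j := by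
  rw [Finsupp.degree_eq_sum, Fin.sum_univ_two, ex_zero, ex_one]

lemma ex_inj {i j i' j' : ℕ} (h : ex i j = ex i' j') : i = i' ∧ j = j' := by
  constructor
  · have := DFunLike.congr_fun h 0
    rwa [ex_zero, ex_zero] at this
  · have := DFunLike.congr_fun h 1
    rwa [ex_one, ex_one] at this

/-- the coefficients of degree `< t` -/
noncomputable def loc (t : ℕ) : MvPolynomial (Fin 2) k →ₗ[k] (De t → k) :=
  LinearMap.pi (fun x => MvPolynomial.lcoeff k (ex x.2.val (x.1.val - x.2.val)))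

lemma loc_apply (t : ℕ) (h : MvPolynomial (Fin 2) k) (x : De t) :
    loc t h x = coeff (ex x.2.val (x.1.val - x.2.val)) h := rfl

lemma loc_eq_zero_iff (t : ℕ) (h : MvPolynomial (Fin 2) k) :
    loc t h = 0 ↔ h ∈ idealOfVars (Fin 2) k ^ t := by
  rw [mem_pow_idealOfVars_iff']
  constructor
  · intro h0 d hd
    rw [Finsupp.degree_eq_sum, Fin.sum_univ_two] at hd
    have h1 := congrFun h0 ⟨⟨d 0 + d 1, hd⟩, ⟨d 0, Nat.lt_succ_of_le (Nat.le_add_right _ _)⟩⟩
    rw [loc_apply] at h1
    simp only [Nat.add_sub_cancel_left, Pi.zero_apply] at h1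
    rw [ex_eta d]
    exact h1
  · intro h0
    ext x
    rw [loc_apply]
    apply h0
    rw [degree_ex]
    have h1 := x.2.2
    have h2 := x.1.2
    omega

/-- the polynomial with given coefficients -/
noncomputable def unloc (t : ℕ) (c : De t → k) : MvPolynomial (Fin 2) k :=
  ∑ x : De t, C (c x) * (X 0 ^ x.2.val * X 1 ^ (x.1.val - x.2.val))

lemma monomial_ex (i j : ℕ) : (X 0 ^ i * X 1 ^ j : MvPolynomial (Fin 2) k) = monomial (ex i j) 1 := by
  rw [ex, X_pow_eq_monomial, X_pow_eq_monomial, monomial_mul, one_mul]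

lemma loc_unloc (t : ℕ) (c : De t → k) : loc t (unloc t c) = c := by
  ext x
  rw [loc_apply, unloc, coeff_sum]
  rw [Finset.sum_eq_single x]
  · rw [monomial_ex, coeff_C_mul, coeff_monomial, if_pos rfl, mul_one]
  · intro y _ hy
    rw [monomial_ex, coeff_C_mul, coeff_monomial, if_neg, mul_zero]
    intro he
    apply hy
    obtain ⟨h1, h2⟩ := ex_inj he
    obtain ⟨⟨a, ha⟩, ⟨b, hb⟩⟩ := x
    obtain ⟨⟨a', ha'⟩, ⟨b', hb'⟩⟩ := y
    simp only at h1 h2 hb hb'
    subst h1
    have : a = a' := by omega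
    subst this
    rfl
  · intro hx
    exact absurd (Finset.mem_univ _) hx

lemma mem_idealOfVars_iff (h : MvPolynomial (Fin 2) k) :
    h ∈ idealOfVars (Fin 2) k ↔ coeff 0 h = 0 := by
  have := mem_pow_idealOfVars_iff' (σ := Fin 2) (R := k) 1 h
  rw [pow_one] at this
  rw [this]
  constructor
  · intro h0
    apply h0
    simp
  · intro h0 d hd
    have : d = 0 := by
      rw [Nat.lt_one_iff] at hd
      rwa [Finsupp.degree_eq_zero_iff] at hd
    rw [this]; exact h0

/-- inverse modulo a power of the ideal -/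
lemma exists_inv_mod (t : ℕ) (u : MvPolynomial (Fin 2) k) (hu : coeff 0 u ≠ 0) :
    ∃ w : MvPolynomial (Fin 2) k, w * u - 1 ∈ idealOfVars (Fin 2) k ^ t := by
  set c := coeff 0 u
  set z : MvPolynomial (Fin 2) k := 1 - C c⁻¹ * u with hz
  have hzI : z ∈ idealOfVars (Fin 2) k := by
    rw [mem_idealOfVars_iff, hz, coeff_sub, coeff_C_mul]
    rw [inv_mul_cancel₀ hu]
    simp
  refine ⟨C c⁻¹ * ∑ i ∈ Finset.range t, z ^ i, ?_⟩
  have h1 : (∑ i ∈ Finset.range t, z ^ i) * (1 - z) = 1 - z ^ t := by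
    have := mul_neg_geom_sum z t
    rw [mul_comm] at this
    exact this
  have h2 : C c⁻¹ * (∑ i ∈ Finset.range t, z ^ i) * u - 1 = - z ^ t := by
    have h3 : C c⁻¹ * u = 1 - z := by rw [hz]; ring
    calc C c⁻¹ * (∑ i ∈ Finset.range t, z ^ i) * u - 1
        = (∑ i ∈ Finset.range t, z ^ i) * (C c⁻¹ * u) - 1 := by ring
      _ = - z ^ t := by rw [h3, h1]; ring
  rw [h2]
  exact neg_mem (Ideal.pow_mem_pow hzI t)

/-! ### charts -/

/-- a chart at the vector `v` -/
structure Chart (v : Fin 3 → k) where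
  φ : MvPolynomial (Fin 3) k →ₐ[k] MvPolynomial (Fin 2) k
  l0 : MvPolynomial (Fin 3) k
  l1 : MvPolynomial (Fin 3) k
  l2 : MvPolynomial (Fin 3) k
  h0 : l0.IsHomogeneous 1
  h1 : l1.IsHomogeneous 1
  h2 : l2.IsHomogeneous 1
  coeff_zero : ∀ F, coeff 0 (φ F) = eval v F
  φ0 : φ l0 = 1
  φ1 : φ l1 = X 0
  φ2 : φ l2 = X 1

lemma fin3_cases : ∀ i j l : Fin 3, i ≠ j → i ≠ l → j ≠ l → ∀ n : Fin 3, n = i ∨ n = j ∨ n = l := by
  decide

lemma exists_chart_aux (v : Fin 3 → k) (i j l : Fin 3) (hij : i ≠ j) (hil : i ≠ l) (hjl : j ≠ l)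
    (hv : v i ≠ 0) : Nonempty (Chart v) := by
  let g : Fin 3 → MvPolynomial (Fin 2) k := fun n =>
    if n = i then C (v i) else if n = j then C (v j) + X 0 else C (v l) + X 1
  have gi : g i = C (v i) := by simp [g]
  have gj : g j = C (v j) + X 0 := by simp [g, hij.symm]
  have gl : g l = C (v l) + X 1 := by simp [g, hil.symm, hjl.symm]
  have hall : ∀ n : Fin 3, n = i ∨ n = j ∨ n = l := fin3_cases i j l hij hil hjl
  refine ⟨⟨aeval g, C (v i)⁻¹ * X i, X j - C (v j * (v i)⁻¹) * X i, X l - C (v l * (v i)⁻¹) * X i,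
    ?_, ?_, ?_, ?_, ?_, ?_, ?_⟩⟩
  · exact isHomogeneous_C_mul_X _ _
  · exact (isHomogeneous_X _ _).sub (isHomogeneous_C_mul_X _ _)
  · exact (isHomogeneous_X _ _).sub (isHomogeneous_C_mul_X _ _)
  · intro F
    have : (constantCoeff.comp (aeval g : MvPolynomial (Fin 3) k →ₐ[k] _).toRingHom) = eval v := by
      apply MvPolynomial.ringHom_ext
      · intro r
        simp [constantCoeff]
      · intro n
        simp only [AlgHom.toRingHom_eq_coe, RingHom.coe_comp, RingHom.coe_coe, Function.comp_apply,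
          aeval_X, eval_X]
        rcases hall n with rfl | rfl | rfl
        · rw [gi]; simp
        · rw [gj]; simp
        · rw [gl]; simp
    have h2 := RingHom.congr_fun this F
    exact h2
  · simp only [map_mul, aeval_X, gi, aeval_C, MvPolynomial.algebraMap_eq]
    rw [← C_mul, inv_mul_cancel₀ hv, C_1]
  · simp only [map_sub, map_mul, aeval_X, gi, gj, aeval_C, MvPolynomial.algebraMap_eq]
    have e : (C (v j * (v i)⁻¹) * C (v i) : MvPolynomial (Fin 2) k) = C (v j) := by
      rw [← map_mul, mul_assoc, inv_mul_cancel₀ hv, mul_one]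
    rw [← map_mul, ← map_mul] at *
    rw [e]
    ring
  · simp only [map_sub, map_mul, aeval_X, gi, gl, aeval_C, MvPolynomial.algebraMap_eq]
    have e : (C (v l * (v i)⁻¹) * C (v i) : MvPolynomial (Fin 2) k) = C (v l) := by
      rw [← map_mul, mul_assoc, inv_mul_cancel₀ hv, mul_one]
    rw [← map_mul, ← map_mul] at *
    rw [e]
    ring

lemma exists_chart (v : Fin 3 → k) (hv : v ≠ 0) : Nonempty (Chart v) := by
  obtain ⟨i, hi⟩ : ∃ i, v i ≠ 0 := by
    by_contra hcon
    push Not at hcon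
    exact hv (funext hcon)
  fin_cases i
  · exact exists_chart_aux v 0 1 2 (by decide) (by decide) (by decide) hi
  · exact exists_chart_aux v 1 0 2 (by decide) (by decide) (by decide) hi
  · exact exists_chart_aux v 2 0 1 (by decide) (by decide) (by decide) hi

lemma Chart.mem_pow {v : Fin 3 → k} (c : Chart v) {F : MvPolynomial (Fin 3) k} {m : ℕ}
    (hF : F ∈ mI v ^ m) : c.φ F ∈ idealOfVars (Fin 2) k ^ m := by
  have h1 : mI v ≤ (idealOfVars (Fin 2) k).comap c.φ.toRingHom := by
    intro G hG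
    rw [Ideal.mem_comap, mem_idealOfVars_iff]
    have := c.coeff_zero G
    rw [mI, RingHom.mem_ker] at hG
    rw [hG] at this
    exact this
  have h2 : (idealOfVars (Fin 2) k).comap c.φ.toRingHom ^ m ≤
      (idealOfVars (Fin 2) k ^ m).comap c.φ.toRingHom := Ideal.le_comap_pow _ _
  exact h2 (Ideal.pow_right_mono h1 m hF)

/-- lift of a polynomial of degree `< t` to a form of degree `n ≥ t - 1` -/
lemma Chart.lift {v : Fin 3 → k} (c : Chart v) {t n : ℕ} (hn : t ≤ n + 1) (a : De t → k) :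
    ∃ A : MvPolynomial (Fin 3) k, A.IsHomogeneous n ∧ c.φ A = unloc t a := by
  refine ⟨∑ x : De t, C (a x) * (c.l0 ^ (n - x.1.val) * (c.l1 ^ x.2.val * c.l2 ^ (x.1.val - x.2.val))),
    ?_, ?_⟩
  · apply IsHomogeneous.sum
    intro x _
    have hx1 := x.1.2
    have hx2 := x.2.2
    have e1 := c.h0.pow (n - x.1.val)
    have e2 := c.h1.pow (x.2.val)
    have e3 := c.h2.pow (x.1.val - x.2.val)
    have e4 := (isHomogeneous_C (Fin 3) (a x)).mul (e1.mul (e2.mul e3))
    convert e4 using 1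
    omega
  · rw [map_sum, unloc]
    apply Finset.sum_congr rfl
    intro x _
    simp only [map_mul, map_pow, c.φ0, c.φ1, c.φ2, one_pow, one_mul]
    congr 1
    exact c.φ.commutes (a x)

end Pool.Agent.Chud
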