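import Mathlib
import Pool.Agent.H15.G.R_seed8.Chud.Defs

set_option autoImplicit false

namespace Pool.Agent.Chud

open MvPolynomial

variable {k : Type*} [Field k]

/-- translation by `v` -/
noncomputable def trans {σ : Type*} (v : σ → k) : MvPolynomial σ k →ₐ[k] MvPolynomial σ k :=
  aeval (fun i => X i + C (v i))

/-- multiplicity of `F` at the point `v` of affine space -/
noncomputable def mu {σ : Type*} (v : σ → k) (F : MvPolynomial σ k) : ℕ :=
  ((trans v F : MvPolynomial σ k) : MvPowerSeries σ k).order.toNat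

/-- polar of `F` -/
noncomputable def polar {σ : Type*} [Fintype σ] (q : σ → k) (F : MvPolynomial σ k) : MvPolynomial σ k :=
  ∑ i, C (q i) * pderiv i F

/-- the linear form of `h` -/
noncomputable def lin {N : ℕ} (h : PP k N) : MvPolynomial (Fin (N + 1)) k := ∑ i, C (h.rep i) * X i

/-- the data of the subset `W` -/
structure WData (W : Finset (PP k 2)) (α : ℕ) (f : PP k 2 → MvPolynomial (Fin 3) k) : Prop where
  αpos : 1 ≤ α
  card : W.card = (α + 1).choose 2
  homog : ∀ w ∈ W, (f w).IsHomogeneous (α - 1)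
  one : ∀ w ∈ W, eval w.rep (f w) = 1
  zero : ∀ w ∈ W, ∀ w' ∈ W, w ≠ w' → eval w'.rep (f w) = 0
  inj : ∀ F : MvPolynomial (Fin 3) k, F.IsHomogeneous (α - 1) → (∀ w ∈ W, eval w.rep F = 0) → F = 0

open Classical in
/-- the contracted lines -/
def Contr (W : Finset (PP k 2)) (α : ℕ) (h : PP k 2) : Prop := (W.filter (fun w => OnH h w)).card = α

end Pool.Agent.Chud
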