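import Mathlib
import Pool.Agent.H15.G.R_seed8.Chud.Defs
import Pool.Agent.H15.G.R_seed8.Chud.Tools

set_option autoImplicit false

namespace Pool.Agent.Chud

open MvPolynomial

/-! ### tools -/

variable {k : Type*} [Field k]

-- TARGET
theorem homog_of_dvd {σ : Type*} [Finite σ] {F G : MvPolynomial σ k} {n : ℕ} (hF : F.IsHomogeneous n)
    (hF0 : F ≠ 0) (h : G ∣ F) : G.IsHomogeneous G.totalDegree := by
  obtain ⟨K, rfl⟩ := h
  have hG0 : G ≠ 0 := left_ne_zero_of_mul hF0
  have hK0 : K ≠ 0 := right_ne_zero_of_mul hF0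
  have hle : ∀ P : MvPolynomial σ k, P ≠ 0 → (P : MvPowerSeries σ k).order ≤ P.totalDegree := by
    intro P hP
    obtain ⟨d, hd⟩ := MvPolynomial.ne_zero_iff.1 hP
    have h1 : (P : MvPowerSeries σ k).order ≤ (d.degree : ℕ∞) :=
      MvPowerSeries.order_le (by simpa using hd)
    refine h1.trans ?_
    have h2 : d.degree ≤ P.totalDegree := by
      have := MvPolynomial.le_totalDegree (p := P) (s := d) (MvPolynomial.mem_support_iff.2 hd)
      simpa [Finsupp.degree_apply, Finsupp.sum] using this
    exact_mod_cast h2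
  have hmul : ((G * K : MvPolynomial σ k) : MvPowerSeries σ k).order =
      (G : MvPowerSeries σ k).order + (K : MvPowerSeries σ k).order := by
    rw [MvPolynomial.coe_mul, MvPowerSeries.order_mul]
  have hFo : (n : ℕ∞) ≤ ((G * K : MvPolynomial σ k) : MvPowerSeries σ k).order := by
    apply MvPowerSeries.nat_le_order
    intro d hd
    rw [MvPolynomial.coeff_coe]
    by_contra hne
    have := hF hne
    have h' : d.degree = n := by rw [← this, Finsupp.degree_eq_weight_one]; rfl
    omega
  have hT : (G * K).totalDegree = n := hF.totalDegree hF0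
  rw [MvPolynomial.totalDegree_mul_of_isDomain hG0 hK0] at hT
  have hGo := hle G hG0
  have hKo := hle K hK0
  rw [hmul] at hFo
  intro d hd
  have h1 : (G : MvPowerSeries σ k).order ≤ (d.degree : ℕ∞) :=
      MvPowerSeries.order_le (by simpa using hd)
  have h2 : d.degree ≤ G.totalDegree := by
      have := MvPolynomial.le_totalDegree (p := G) (s := d) (MvPolynomial.mem_support_iff.2 hd)
      simpa [Finsupp.degree_apply, Finsupp.sum] using this
  have h3 : (n : ℕ∞) ≤ (d.degree : ℕ∞) + (K.totalDegree : ℕ∞) := hFo.trans (add_le_add h1 hKo)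
  have h4 : n ≤ d.degree + K.totalDegree := by exact_mod_cast h3
  have h5 : d.degree = G.totalDegree := by omega
  rw [← h5, Finsupp.degree_eq_weight_one]
  rfl

end Pool.Agent.Chud
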